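import Pool.Agent.H11.NZ.Targets
import Pool.Agent.H47.NY.RP

/-!
# Board nz, module RPX: chief factors give irreducible representations
-/

set_option autoImplicit false

namespace Pool.Agent.H47.NZ.RPX

open Pool.Agent.H11.NY Pool.Agent.H11.NZ Pool.Agent.H47.NY.RP

theorem pf_rpx (hRH : Pool.Agent.H11.NS.T_RH) (hBC : Pool.Agent.H11.NY.T_BC) (hP2 : T_P2X) :
    T_RPX := by
  intro e
  obtain ⟨B₀, hB₀⟩ := hP2 e
  refine ⟨B₀, ?_⟩
  intro H Ω _ _ _ _ ψ X hX hsch l hl A B hAn hBn hBA hAk hp hmin hpair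
  have hfact : Fact l.Prime := ⟨hl⟩
  obtain ⟨hab, hexp⟩ := chief l hl A B hAn hBn hBA hp hmin
  obtain ⟨W, i1, i2, ρ, F, hFs, hFm, hFe, hρ⟩ := rep hRH A B hAn hBn l hab hexp
  have hWfin : Finite W := Finite.of_surjective F hFs
  have hF1 : F 1 = 0 := by
    have h1 := hFm 1 1
    rw [mul_one] at h1
    exact left_eq_add.1 h1
  have hF0 : ∀ x : A, F x = 0 ↔ (x : H) ∈ B := by
    intro x
    rw [← hF1, hFe]
    simp
  have hFinv : ∀ x : A, F x⁻¹ = - F x := by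
    intro x
    have h1 := hFm x x⁻¹
    rw [mul_inv_cancel, hF1] at h1
    exact (neg_eq_of_add_eq_zero_right h1.symm).symm
  -- irreducibility
  have hirr : Irr ρ := by
    constructor
    · obtain ⟨x, hxA, hxB⟩ := SetLike.exists_of_lt hBA
      refine ⟨F ⟨x, hxA⟩, ?_⟩
      intro h
      exact hxB ((hF0 _).1 h)
    · intro U hU
      let M : Subgroup H :=
        { carrier := {x | ∃ hx : x ∈ A, F ⟨x, hx⟩ ∈ U}
          one_mem' := ⟨A.one_mem, by
            have h1 : F ⟨1, A.one_mem⟩ = 0 := hF1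
            rw [h1]
            exact U.zero_mem⟩
          mul_mem' := by
            rintro x y ⟨hx, hx'⟩ ⟨hy, hy'⟩
            refine ⟨A.mul_mem hx hy, ?_⟩
            have h1 : F ⟨x * y, A.mul_mem hx hy⟩ = F ⟨x, hx⟩ + F ⟨y, hy⟩ := hFm ⟨x, hx⟩ ⟨y, hy⟩
            rw [h1]
            exact U.add_mem hx' hy'
          inv_mem' := by
            rintro x ⟨hx, hx'⟩
            refine ⟨A.inv_mem hx, ?_⟩
            have h1 : F ⟨x⁻¹, A.inv_mem hx⟩ = - F ⟨x, hx⟩ := hFinv ⟨x, hx⟩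
            rw [h1]
            exact U.neg_mem hx' }
      have hMn : M.Normal := by
        constructor
        rintro x ⟨hx, hx'⟩ g
        refine ⟨hAn.conj_mem x hx g, ?_⟩
        have h1 := hρ g ⟨x, hx⟩
        rw [← h1]
        exact hU g _ hx'
      have hBM : B ≤ M := by
        intro x hx
        refine ⟨hBA.le hx, ?_⟩
        rw [(hF0 ⟨x, hBA.le hx⟩).2 hx]
        exact U.zero_mem
      have hMA : M ≤ A := fun x hx => hx.1
      rcases hmin M hMn hBM hMA with h | h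
      · left
        rw [eq_bot_iff]
        intro w hw
        obtain ⟨x, rfl⟩ := hFs w
        have hxM : (x : H) ∈ M := ⟨x.2, hw⟩
        rw [h] at hxM
        rw [Submodule.mem_bot]
        exact (hF0 x).2 hxM
      · right
        rw [eq_top_iff]
        intro w _
        obtain ⟨x, rfl⟩ := hFs w
        have hxM : (x : H) ∈ M := by
          rw [h]
          exact x.2
        exact hxM.2
  obtain ⟨V, j1, j2, j3, τ, f, hτ, hfi, hfe, hrel⟩ := hBC l H W ρ hirr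
  -- the relation
  have hRel : ∀ (q : ℕ) (a h : H), 0 < q → a ^ q = 1 →
      (∀ x ∈ A, a * x * a⁻¹ * x⁻¹ ∈ B → h * x * h⁻¹ * x⁻¹ ∈ B) → Rel ρ a h q := by
    intro q a h hq ha hh w
    obtain ⟨y, hy⟩ := hFs (∑ j ∈ Finset.range q, ρ (a ^ j) w)
    have h1 : ρ a (∑ j ∈ Finset.range q, ρ (a ^ j) w) = ∑ j ∈ Finset.range q, ρ (a ^ j) w := by
      rw [map_sum]
      have h2 : ∀ j, ρ a (ρ (a ^ j) w) = ρ (a ^ (j + 1)) w := by
        intro j
        rw [pow_succ', map_mul]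
        rfl
      rw [Finset.sum_congr rfl fun j _ => h2 j]
      have h3 := Finset.sum_range_succ' (fun j => ρ (a ^ j) w) q
      have h4 := Finset.sum_range_succ (fun j => ρ (a ^ j) w) q
      rw [h4] at h3
      have h5 : ρ (a ^ q) w = ρ (a ^ 0) w := by rw [ha, pow_zero]
      rw [h5] at h3
      exact (add_right_cancel h3).symm
    rw [← hy] at h1 ⊢
    rw [hρ, hFe] at h1
    rw [hρ, hFe]
    exact hh y y.2 h1
  have hcast : ∀ q : ℕ, q.Prime → q ≠ l → (q : AlgebraicClosure (ZMod l)) ≠ 0 := by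
    intro q hq hql h
    have : CharP (AlgebraicClosure (ZMod l)) l := inferInstance
    rw [CharP.cast_eq_zero_iff (AlgebraicClosure (ZMod l)) l] at h
    exact hql ((Nat.prime_dvd_prime_iff_eq hl hq).1 h).symm
  have hloc : ∀ v : V, LocAt ψ X e τ v := by
    apply hB₀ H Ω ψ X hX hsch (AlgebraicClosure (ZMod l)) V τ hτ
    intro r hr
    obtain ⟨q, p, a, h, hqr, hql, hpl, hP, hh⟩ := hpair r hr
    refine ⟨q, p, a, h, hqr, hP, hcast q hP.1 hql, hcast p hP.2.2.2.1 hpl, ?_⟩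
    exact hrel a h q (hRel q a h hP.1.pos hP.2.2.2.2.2.1 hh)
  intro Δ Δ' hd hΔ hΔ' D D' hD hD' d hdD d' hdD' x hx
  have h1 := hloc (f (F ⟨x, hx⟩)) Δ Δ' hd hΔ hΔ' D D' hD hD' d hdD d' hdD' 
  rw [← hfe, ← hfe, ← hfe, ← map_sub, ← map_sub, ← map_add] at h1
  have h2 : ρ d (ρ d' (F ⟨x, hx⟩)) - ρ d (F ⟨x, hx⟩) - ρ d' (F ⟨x, hx⟩) + F ⟨x, hx⟩ = 0 :=
    hfi (h1.trans (map_zero f).symm)
  have hyA : d' * x * d'⁻¹ * x⁻¹ ∈ A := A.mul_mem (hAn.conj_mem x hx d') (A.inv_mem hx)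
  have h3 : F ⟨d' * x * d'⁻¹ * x⁻¹, hyA⟩ = ρ d' (F ⟨x, hx⟩) - F ⟨x, hx⟩ := by
    have h4 := hFm ⟨d' * x * d'⁻¹, hAn.conj_mem x hx d'⟩ (⟨x, hx⟩⁻¹)
    rw [hFinv, ← hρ d' ⟨x, hx⟩] at h4
    rw [sub_eq_add_neg]
    exact h4
  have h5 : ρ d (F ⟨d' * x * d'⁻¹ * x⁻¹, hyA⟩) = F ⟨d' * x * d'⁻¹ * x⁻¹, hyA⟩ := by
    rw [h3, map_sub]
    rw [← sub_eq_zero, ← h2]
    abel
  rw [hρ, hFe] at h5
  exact h5

end Pool.Agent.H47.NZ.RPX
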