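import Pool.Agent.H11.NZ.Targets

/-!
# Board nz, module RSS: the quotient of a relative socle
-/

set_option autoImplicit false

namespace Pool.Agent.H47.NZ.RSS

open Pool.Agent.H11.NY Pool.Agent.H11.NZ

theorem pf_rss : T_RSS := by
  intro L I Q _ _ _ Z M T π hπ hker hR _ hact
  obtain ⟨r1, r2, r3, r4, r5, r6, r7, r8, r9⟩ := hR
  have hZ : ∀ x : L, x ∈ Z ↔ π x = 1 := by
    intro x
    rw [← hker, MonoidHom.mem_ker]
  have hZmap : Z.map π = ⊥ := by
    rw [Subgroup.map_eq_bot_iff, hker]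
  refine ⟨r1, ?_, ?_, ?_, ?_, ?_, ?_⟩
  · constructor
    intro i j
    obtain ⟨g, hg⟩ := r2.exists_smul_eq i j
    exact ⟨π g, by rw [hact]; exact hg⟩
  · intro i
    have hne : ∃ t ∈ T i, π t ≠ 1 := by
      by_contra hall
      push Not at hall
      exact r5 i fun t ht => (hZ t).2 (hall t ht)
    obtain ⟨t₀, ht₀, hne₀⟩ := hne
    have hnt : Nontrivial ((T i).map π) := by
      refine ⟨⟨⟨π t₀, Subgroup.mem_map_of_mem π ht₀⟩, 1, ?_⟩⟩
      intro h
      exact hne₀ (congrArg Subtype.val h)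
    refine { eq_bot_or_eq_top_of_normal := ?_ }
    intro H hH
    have hmem : ∀ (t : L) (ht : t ∈ T i), π t ∈ H.map ((T i).map π).subtype ↔
        (⟨π t, Subgroup.mem_map_of_mem π ht⟩ : (T i).map π) ∈ H := by
      intro t ht
      rw [Subgroup.mem_map]
      constructor
      · rintro ⟨h, hh, hh'⟩
        have e1 : h = ⟨π t, Subgroup.mem_map_of_mem π ht⟩ := Subtype.ext hh'
        rw [← e1]
        exact hh
      · intro h
        exact ⟨_, h, rfl⟩
    let A : Subgroup L := T i ⊓ (H.map ((T i).map π).subtype).comap π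
    have hAT : A ≤ T i := inf_le_left
    have hAn : ∀ x ∈ T i, ∀ y ∈ A, x * y * x⁻¹ ∈ A := by
      intro x hx y hy
      have hy1 : y ∈ T i := hAT hy
      have hy2 : π y ∈ H.map ((T i).map π).subtype := hy.2
      have hxyx : x * y * x⁻¹ ∈ T i := (T i).mul_mem ((T i).mul_mem hx hy1) ((T i).inv_mem hx)
      refine Subgroup.mem_inf.2 ⟨hxyx, ?_⟩
      rw [Subgroup.mem_comap]
      rw [hmem y hy1] at hy2
      rw [hmem _ hxyx]
      have h1 := hH.conj_mem _ hy2 ⟨π x, Subgroup.mem_map_of_mem π hx⟩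
      have h2 : (⟨π (x * y * x⁻¹), Subgroup.mem_map_of_mem π hxyx⟩ : (T i).map π) =
          ⟨π x, Subgroup.mem_map_of_mem π hx⟩ * ⟨π y, Subgroup.mem_map_of_mem π hy1⟩ *
          (⟨π x, Subgroup.mem_map_of_mem π hx⟩)⁻¹ := by
        apply Subtype.ext
        simp [map_mul, map_inv]
      rw [h2]
      exact h1
    rcases r6 i A hAT hAn with h | h
    · left
      rw [eq_bot_iff]
      rintro ⟨q, hq⟩ hqH
      obtain ⟨t, ht, rfl⟩ := Subgroup.mem_map.1 hq
      have h1 : t ∈ A := Subgroup.mem_inf.2 ⟨ht, by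
        rw [Subgroup.mem_comap, hmem t ht]
        exact hqH⟩
      have h2 := (hZ t).1 (h h1)
      rw [Subgroup.mem_bot]
      exact Subtype.ext h2
    · right
      rw [eq_top_iff]
      rintro ⟨q, hq⟩ _
      obtain ⟨t, ht, rfl⟩ := Subgroup.mem_map.1 hq
      have h1 : π t ∈ (A ⊔ Z).map π := Subgroup.mem_map_of_mem π (h ht)
      rw [Subgroup.map_sup, hZmap, sup_bot_eq] at h1
      obtain ⟨a, ha, hat⟩ := Subgroup.mem_map.1 h1
      have h2 : π a ∈ H.map ((T i).map π).subtype := ha.2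
      rw [hat, hmem t ht] at h2
      exact h2
  · intro i
    by_contra hall
    push Not at hall
    apply r5 i
    rw [← r4 i, Subgroup.commutator_le]
    intro x hx y hy
    rw [hZ, commutatorElement_def, map_mul, map_mul, map_mul, map_inv, map_inv,
      hall _ (Subgroup.mem_map_of_mem π hx) _ (Subgroup.mem_map_of_mem π hy)]
    group
  · rintro i j hij q hq q' hq'
    obtain ⟨x, hx, rfl⟩ := Subgroup.mem_map.1 hq
    obtain ⟨y, hy, rfl⟩ := Subgroup.mem_map.1 hq'
    have h1 := (hZ _).1 (r7 i j hij x hx y hy)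
    rw [map_mul, map_mul, map_mul, map_inv, map_inv, mul_inv_eq_one,
      mul_inv_eq_iff_eq_mul] at h1
    exact h1
  · intro q i q' hq'
    obtain ⟨y, rfl⟩ := hπ q
    obtain ⟨x, hx, rfl⟩ := Subgroup.mem_map.1 hq'
    rw [hact, ← map_inv, ← map_mul, ← map_mul]
    exact Subgroup.mem_map_of_mem π (r8 y i x hx)
  · apply le_antisymm
    · exact iSup_le fun i => Subgroup.map_mono (r3 i)
    · refine (Subgroup.map_mono r9).trans ?_
      rw [Subgroup.map_sup, hZmap, sup_bot_eq, Subgroup.map_iSup]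

end Pool.Agent.H47.NZ.RSS
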