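import Pool.Agent.H11.NZ.Targets

/-!
# Board nz, module TQ: a commuting condition on three quarters of a group
-/

set_option autoImplicit false

namespace Pool.Agent.H47.NZ.TQ

open Pool.Agent.H11.NY Pool.Agent.H11.NZ

theorem half {T : Type} [Group T] [Finite T] (H : Subgroup T)
    (h : Nat.card T < 2 * Nat.card H) : H = ⊤ := by
  rw [← Subgroup.index_eq_one]
  have h1 := H.card_mul_index
  have h2 : H.index ≠ 0 := H.index_ne_zero_of_finite
  by_contra h3
  have h4 : 2 ≤ H.index := by omega
  have := Nat.mul_le_mul_left (Nat.card H) h4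
  omega

theorem half' {T : Type} [Group T] [Finite T] (H : Subgroup T) (s : Set T)
    (hs : ∀ x ∈ s, x ∈ H) (h : Nat.card T < 2 * Nat.card s) : H = ⊤ := by
  apply half
  have h1 : Nat.card s ≤ Nat.card H :=
    Nat.card_le_card_of_injective (fun x => (⟨x.1, hs x.1 x.2⟩ : H)) (by
      intro x y hxy
      exact Subtype.ext (Subtype.mk.inj hxy))
  omega

theorem pf_tq : T_TQ := by
  classical
  intro T _ _ S hnc hS
  obtain ⟨x₀, y₀, hxy⟩ := hnc
  by_contra hlt
  rw [not_le] at hlt
  have := Fintype.ofFinite T
  have hcent : ∀ u ∈ S, ∀ v : T, u * v = v * u := by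
    intro u hu
    have hfin : ∀ R : Set T, Nat.card R = R.ncard := fun R => Nat.card_coe_set_eq R
    let S' : Set T := (fun v => u * v) ⁻¹' S
    have hS' : S'.ncard = S.ncard := by
      apply Set.ncard_preimage_of_injective_subset_range (mul_right_injective u)
      intro v _
      exact ⟨u⁻¹ * v, mul_inv_cancel_left u v⟩
    have h1 := Set.ncard_union_add_ncard_inter S S' (Set.toFinite _) (Set.toFinite _)
    have h2 : (S ∪ S').ncard ≤ Nat.card T := Set.ncard_le_card _
    rw [hfin] at hlt
    have h3 : Subgroup.centralizer ({u} : Set T) = ⊤ := by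
      apply half' _ (S ∩ S')
      · rintro v ⟨hv, hv'⟩
        rw [Subgroup.mem_centralizer_singleton_iff]
        exact (hS u hu v hv hv').symm
      · rw [hfin]
        omega
    intro v
    have h4 : v ∈ Subgroup.centralizer ({u} : Set T) := by
      rw [h3]
      exact Subgroup.mem_top v
    rw [Subgroup.mem_centralizer_singleton_iff] at h4
    exact h4.symm
  have h5 : Subgroup.center T = ⊤ := by
    apply half' _ S
    · intro u hu
      rw [Subgroup.mem_center_iff]
      intro v
      exact (hcent u hu v).symm
    · omega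
  have h6 : x₀ ∈ Subgroup.center T := by
    rw [h5]
    exact Subgroup.mem_top _
  rw [Subgroup.mem_center_iff] at h6
  exact hxy (h6 y₀).symm

end Pool.Agent.H47.NZ.TQ
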